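import Pool.Agent.MP_db5b97_nt.H58.Main

open MvPolynomial Pool.Agent.MP_db5b97_nt.H58 in
/-- For every set `S` of divisors of `d - 1` with sum at most `N + 1` there is a degree `d`
morphism of `ℙᴺ` with field of moduli `ℚ` all of whose fields of definition have degree divisible
by the least common multiple of `S`. -/
theorem Pool.Agent.Results.MP_db5b97_nt.LandauLowerBound.result
    (N d : ℕ) (hd : 2 ≤ d) (S : Finset ℕ) (hS : ∀ n ∈ S, n ∣ d - 1) (hN : ∑ n ∈ S, n ≤ N + 1) :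
    ∃ f : Fin (N + 1) → MvPolynomial (Fin (N + 1)) (AlgebraicClosure ℚ),
      (∀ i, (f i).IsHomogeneous d) ∧
      (∀ x : Fin (N + 1) → AlgebraicClosure ℚ, (∀ i, eval x (f i) = 0) → x = 0) ∧
      (∀ σ : AlgebraicClosure ℚ ≃ₐ[ℚ] AlgebraicClosure ℚ,
        ∃ (φ : GL (Fin (N + 1)) (AlgebraicClosure ℚ)) (c : AlgebraicClosure ℚ), c ≠ 0 ∧
          ∀ i, MvPolynomial.map (σ : AlgebraicClosure ℚ →+* AlgebraicClosure ℚ) (f i)
            = C c * conj φ f i) ∧
      ∀ L : IntermediateField ℚ (AlgebraicClosure ℚ), FiniteDimensional ℚ L →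
        (∃ (φ : GL (Fin (N + 1)) (AlgebraicClosure ℚ)) (c : AlgebraicClosure ℚ), c ≠ 0 ∧
          ∀ i m, coeff m (C c * conj φ f i) ∈ L) →
        S.lcm id ∣ Module.finrank ℚ L := by
  obtain ⟨A, hA, h1, h2⟩ := exists_matrix N d hd S hS hN
  refine ⟨pw d A, fun i => ?_, fun x hx => ?_, fun σ => ?_, fun L _ ⟨φ, c, hc, h⟩ =>
    h2 L φ.val φ.isUnit (desc_of_def hd hA hc h)⟩
  · exact IsHomogeneous.sum _ _ _ fun l _ => (isHomogeneous_X_pow l d).C_mul _
  · have h3 : (fun l => x l ^ d) = 0 := Matrix.mulVec_injective_iff_isUnit.mpr hA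
      (by rw [← eval_pw, Matrix.mulVec_zero]; exact funext hx)
    exact funext fun l => pow_eq_zero_iff (by omega) |>.mp (congrFun h3 l)
  · obtain ⟨φ, h⟩ := conj_of_mod h1 σ
    exact ⟨φ, 1, one_ne_zero, fun i => by rw [h, C_1, one_mul]⟩
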