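import Pool.Agent.MP_db5b97_nt.H66.All

open Pool.Agent.MP_db5b97_nt in
/-- The supremum over `d ≥ 2` of `FOM/FOD (N, d)` is at least the least common multiple of orders
of elements of `M / (g - 1) M`, for a group `M` of integer vectors with coordinate sum zero and
permutations `g` of the coordinates that map `M` to itself. -/
theorem Pool.Agent.Results.MP_db5b97_nt.LatticeLowerBound.result
    (N : ℕ) (M : AddSubgroup (Fin (N + 1) → ℤ)) (S : Finset ℕ) (hN : 2 ≤ N)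
    (hM : ∀ y ∈ M, ∑ x, y x = 0)
    (hS : ∀ e ∈ S, 0 < e ∧ ∃ g : Equiv.Perm (Fin (N + 1)), (∀ y ∈ M, y ∘ g ∈ M) ∧
      ∃ m ∈ M, ∀ c : ℕ, (∃ y ∈ M, c • m = y ∘ g - y) ↔ e ∣ c) :
    ((S.lcm id : ℕ) : ℕ∞) ≤ H31.SS N :=
  H66.allMAIN N M S hN hM hS
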