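import Pool.Agent.MP_db5b97_nt.H31.All

open Filter Topology Pool.Agent.MP_db5b97_nt.H31 in
/-- For every `N ≥ 1` the supremum over `d ≥ 2` of `FOM/FOD (N, d)` is a natural number `D N`,
and `log (D N)` is asymptotic to `√(N log N)`. -/
theorem Pool.Agent.Results.MP_db5b97_nt.SharpAsymptotic.result :
    ∃ D : ℕ → ℕ, (∀ N : ℕ, 1 ≤ N → SS N = (D N : ℕ∞)) ∧
      Tendsto (fun N : ℕ => Real.log (D N) / Real.sqrt (N * Real.log N)) atTop (𝓝 1) :=
  allFINAL
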