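import Pool.Agent.MP_db5b97_nt.H67.All

open Pool.Agent.MP_db5b97_nt in
/-- For `1 ≤ N ≤ 4` the supremum over `d ≥ 2` of `FOM/FOD (N, d)` is the largest order of a
permutation of `N + 1` points. -/
theorem Pool.Agent.Results.MP_db5b97_nt.SmallDimensions.result (N : ℕ) (h1 : 1 ≤ N) (h4 : N ≤ 4) :
    H31.SS N = ⨆ σ : Equiv.Perm (Fin (N + 1)), (orderOf σ : ℕ∞) :=
  (H67.ss_eq H67.allBB h1 h4).trans (H67.landau h1 h4).symm
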